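import Pool.Agent.MP_1246c0_nt.H12.SpecA
import Pool.Agent.MP_db5b97_nt.H21.NT2

/-! Invariant divisors in the layers over the quadratic field. -/

namespace Pool.Agent.MP_1246c0_nt.H12

open NumberField IsDedekindDomain Pool.Agent.MP_db5b97_nt.H85

namespace AMB

section Grp

variable {A G : Type} [Group G] [AddCommGroup A] [DistribMulAction G A]

theorem fix_iff {τ : G} {x : A} : x ∈ Fix A (Subgroup.zpowers τ) ↔ τ • x = x :=
  ⟨fun h => h τ (Subgroup.mem_zpowers τ), fun h _ hs =>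
    (Subgroup.zpowers_le (H := MulAction.stabilizer G x)).2 h hs⟩

theorem nm_two (σ : G) (x : A) : Nm σ 2 x = x + σ • x := by
  simp [Nm_apply, Finset.sum_range_succ]

theorem fx_succ (γ : G) (m : ℕ) : Fx A (γ ^ 2 ^ m) ≤ Fx A (γ ^ 2 ^ (m + 1)) := fun x h => by
  rw [mem_Fx] at h ⊢
  rw [pow_succ 2, mul_two, pow_add, mul_smul, h, h]

theorem fx_smul (γ : G) (n : ℕ) {x : A} (h : x ∈ Fx A (γ ^ n)) : γ • x ∈ Fx A (γ ^ n) := by
  rw [mem_Fx] at h ⊢
  rw [← mul_smul, ← pow_succ, pow_succ', mul_smul, h]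

theorem norm_mem {σ τ : G} (h : Commute σ τ) :
    σ ∈ Subgroup.normalizer (Subgroup.zpowers τ : Set G) := by
  refine Subgroup.centralizer_le_normalizer _ (Subgroup.mem_centralizer_iff.2 ?_)
  rintro _ ⟨n, rfl⟩
  exact (h.zpow_right n).symm

theorem smul_filter {X : Type} [MulAction G X] (p : X → Prop) [DecidablePred p] (g : G)
    (h : ∀ a, p (g⁻¹ • a) ↔ p a) (D : X →₀ ℤ) : g • D.filter p = (g • D).filter p := by
  ext a
  simp only [NT2.pm_apply, Finsupp.filter_apply, h]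

end Grp

variable {L : Type} [Field L] [NumberField L]

theorem eqv (g : L ≃ₐ[ℚ] L) (x : Un L) : dv L 2 (g • x) = g • dv L 2 x := by
  refine Finsupp.ext fun w => ?_
  obtain ⟨v, rfl⟩ := MulAction.surjective g w
  exact (NT2.ord_smul L _ g v.1 x).trans
    ((NT2.pm_apply g (dv L 2 x) _).trans (congrArg _ (inv_smul_smul g v))).symm

theorem od_mono {U U' : AddSubgroup (Un L)} (h : U ≤ U') : Od U ≤ Od U' :=
  fun _ ⟨k, hk, x, hx, e⟩ => ⟨k, hk, x, h hx, e⟩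

theorem nat_smul (g : L ≃ₐ[ℚ] L) (d : ℕ) (w : Pr L 2) :
    (d : 𝓞 L) ∈ (g • w).1.asIdeal ↔ (d : 𝓞 L) ∈ w.1.asIdeal :=
  (mem_smul_iff g w.1 d).trans (by rw [smul_natCast])

theorem oc_le (γ : L ≃ₐ[ℚ] L) (m : ℕ) : Oc γ m ≤ Iv γ m := by
  rintro D ⟨k, hk, x, hx, e⟩
  refine nsmul_right_injective hk.pos.ne' ?_
  change k • γ ^ 2 ^ m • D = k • D
  rw [smul_comm, e, ← eqv, mem_Fx.1 hx]

/-- a multiple of a divisor by the class number is principal -/
theorem cls (D : Dv L 2) : ∃ x, classNumber L • D = dv L 2 x := by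
  have key : ∀ I : Ideal (𝓞 L), I ≠ ⊥ → ∃ x, classNumber L • dI 2 I = dv L 2 x := by
    intro I hI
    have h : ClassGroup.mk0 (⟨I, mem_nonZeroDivisors_of_ne_zero hI⟩ ^ classNumber L) = 1 := by
      rw [map_pow]
      exact pow_card_eq_one
    obtain ⟨a, ha⟩ := (ClassGroup.mk0_eq_one_iff _).1 h
    have ha' : I ^ classNumber L = Ideal.span {a} := ha
    have a0 : a ≠ 0 := by
      rintro rfl
      exact pow_ne_zero _ hI (ha'.trans (by simp))
    exact ⟨mkI a a0, by rw [dv_mkI, ← ha', dI_pow hI]⟩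
  obtain ⟨I, J, hI, hJ, -, rfl⟩ := exists_dI D
  obtain ⟨x, hx⟩ := key I hI
  obtain ⟨y, hy⟩ := key J hJ
  exact ⟨x - y, by rw [smul_sub, hx, hy, map_sub]⟩

/-- descent of an invariant divisor -/
theorem down (F G : Type) [Field F] [NumberField F] [Algebra F L] [Group G]
    [MulSemiringAction G L] [IsGaloisGroup G F L] (D : Dv L 2) (h : ∀ s : G, s • D = D)
    (hd : ∀ w : Pr L 2, (Nat.card (w.1.asIdeal.inertia G) : ℤ) ∣ D w) :
    ∃ x, classNumber F • D = dv L 2 (Un.inc F L x) := by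
  have := IsGaloisGroup.finite G F L
  obtain ⟨D₀, rfl⟩ := (NT2.con_range F L G 2 D).2 h
  obtain ⟨x, hx⟩ := cls (Finsupp.onFinset D₀.support
    (fun v => D₀ v / (v.1.asIdeal.ramificationIdxIn (𝓞 L) : ℤ)) fun v hv =>
      Finsupp.mem_support_iff.2 fun e => hv (by rw [e, Int.zero_ediv]))
  refine ⟨x, Finsupp.ext fun w => ?_⟩
  have : w.1.asIdeal.LiesOver (und F w.1).asIdeal := ⟨rfl⟩
  have := w.1.isPrime
  have := (und F w.1).isMaximal
  have : Finite (𝓞 F ⧸ (und F w.1).asIdeal) :=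
    Ideal.finiteQuotientOfFreeOfNeBot _ (und F w.1).ne_bot
  have e := DFunLike.congr_fun hx (w.und F)
  have hw := hd w
  rw [Ideal.card_inertia_eq_ramificationIdxIn (G := G) (und F w.1).asIdeal w.1.asIdeal,
    con_apply] at hw
  rw [Finsupp.nsmul_apply, Finsupp.onFinset_apply, dv_apply, nsmul_eq_mul] at e
  rw [dv_apply, NT2.ord_inc, Finsupp.nsmul_apply, con_apply, nsmul_eq_mul,
    ← Ideal.ramificationIdxIn_eq_ramificationIdx (und F w.1).asIdeal w.1.asIdeal G]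
  refine Eq.trans ?_ (congrArg (_ * ·) e)
  rw [mul_left_comm]
  exact congrArg (_ * ·) (Int.mul_ediv_cancel' hw).symm

variable {d M m : ℕ} {s θ : L} {σ γ : L ≃ₐ[ℚ] L}

theorem amb1 (hC : SCY) (hO : SODD) (hT : STW) (hP : STP) (t : Tw L d M s θ σ γ) (hm : m ≤ M)
    {D : Dv L 2} (h1 : D ∈ Iv γ m) (h2 : σ • D = D)
    (h3 : ∀ w : Pr L 2, (d : 𝓞 L) ∈ w.1.asIdeal → Even (D w)) : D ∈ Ob σ γ m := by
  obtain ⟨F, _, _, θ', γ', cy⟩ := hC.ex m
  obtain ⟨j, -, -, hj⟩ := hT.emb L F d M m s θ σ γ θ' γ' t cy hm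
  let _ := j.toAlgebra
  let G := Subgroup.closure {σ, γ ^ 2 ^ m}
  have m1 : σ ∈ G := Subgroup.subset_closure (Or.inl rfl)
  have m2 : γ ^ 2 ^ m ∈ G := Subgroup.subset_closure (Or.inr rfl)
  have fx : ∀ {X : Type} [MulAction (L ≃ₐ[ℚ] L) X] (x : X), σ • x = x → γ ^ 2 ^ m • x = x →
      ∀ g ∈ G, g • x = x := fun x a b =>
    (Subgroup.closure_le (K := MulAction.stabilizer _ x)).2 (by
      rintro _ (rfl | rfl)
      exacts [a, b])
  have hj' : ∀ a, σ (j a) = j a ∧ (γ ^ 2 ^ m) (j a) = j a := fun a => (hj _).1 ⟨a, rfl⟩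
  have : IsGaloisGroup G F L :=
    { faithful := inferInstance
      commutes := ⟨fun g a y => by
        change g.1 • (j a * y) = j a * g.1 • y
        rw [smul_mul', fx (j a) (hj' a).1 (hj' a).2 g g.2]⟩
      isInvariant := ⟨fun y hy => (hj y).2 ⟨hy ⟨_, m1⟩, hy ⟨_, m2⟩⟩⟩ }
  obtain ⟨x, hx⟩ := down F G D (fun g => fx D h2 h1 g g.2) fun w => by
    have k : ∀ g ∈ w.1.asIdeal.inertia G, g = 1 ∨ (g = ⟨σ, m1⟩ ∧ (d : 𝓞 L) ∈ w.1.asIdeal) :=
      fun g hg => ((hP.unr L d M s θ σ γ t w).2 g.1 hg).imp Subtype.ext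
        fun e => ⟨Subtype.ext e.1, e.2⟩
    by_cases hw : (d : 𝓞 L) ∈ w.1.asIdeal
    · have le : w.1.asIdeal.inertia G ≤ Subgroup.zpowers ⟨σ, m1⟩ := fun g hg => by
        rcases k g hg with rfl | ⟨rfl, -⟩
        exacts [one_mem _, Subgroup.mem_zpowers _]
      have dv := Subgroup.card_dvd_of_le le
      rw [Nat.card_zpowers] at dv
      have o : orderOf (⟨σ, m1⟩ : G) ∣ 2 := orderOf_dvd_of_pow_eq_one
        (Subtype.ext ((sq σ).trans (hT.gal L d M s θ σ γ t).2.2.1))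
      exact (Int.natCast_dvd_natCast.2 (dv.trans o)).trans (h3 w hw).two_dvd
    · exact (Int.natCast_dvd_natCast.2 (Subgroup.card_eq_one.2 (eq_bot_iff.2 fun g hg =>
        (k g hg).resolve_right fun e => hw e.2)).dvd).trans (one_dvd _)
  exact ⟨_, hO F m θ' γ' cy, _, ⟨Un.ext (hj' _).2, Un.ext (hj' _).1⟩, hx⟩

theorem rm_fix (hP : STP) (t : Tw L d M s θ σ γ) {c : Dv L 2} (h : c ∈ Rm L d) : σ • c = c := by
  ext w
  rw [NT2.pm_apply]
  by_cases hw : (d : 𝓞 L) ∈ w.1.asIdeal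
  · rw [inv_smul_eq_iff.2 (hP.ram L d M s θ σ γ t w hw).1.symm]
  · rw [h w hw, h _ fun e => hw ((nat_smul _ d w).1 e)]

end AMB

open AMB in
theorem rowAMB : OfAMB := by
  classical
  intro hC hO hT hP
  refine ⟨fun L _ _ => eqv, fun L _ _ σ γ m => ⟨od_mono inf_le_left, oc_le γ m,
    od_mono (fx_succ γ m), fx_succ γ m, ?_, fun D h => fx_smul γ _ h, fun d D h w hw => ?_⟩,
    fun L _ _ d M m s θ σ γ t hm D h1 h2 => ⟨amb1 hC hO hT hP t hm h1 h2, ?_⟩,
    fun L _ _ d M m s θ σ γ t B h1 h2 => ?_, fun L _ _ d M m s θ σ γ t x h1 h2 => ?_,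
    fun L _ _ d M m s θ σ γ t hm => ?_⟩
  · rintro D ⟨k, hk, x, hx, e⟩
    exact ⟨k, hk, γ • x, fx_smul γ _ hx, by rw [smul_comm, e, eqv]⟩
  · rw [NT2.pm_apply]
    exact h _ fun e => hw ((nat_smul _ d w).1 e)
  · have c1 : D.filter (fun w => (d : 𝓞 L) ∈ w.1.asIdeal) ∈ Rm L d := fun w hw =>
      Finsupp.filter_apply_neg _ _ hw
    have c2 : D.filter (fun w => (d : 𝓞 L) ∈ w.1.asIdeal) ∈ Iv γ m :=
      (smul_filter _ _ (nat_smul _ d) D).trans (congrArg _ h1)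
    refine ⟨_, ⟨c1, c2⟩, fun w hw => Finsupp.filter_apply_pos _ _ hw,
      amb1 hC hO hT hP t hm (sub_mem h1 c2) (by rw [smul_sub, h2, rm_fix hP t c1]) fun w hw => ?_⟩
    rw [Finsupp.sub_apply, Finsupp.filter_apply, if_pos hw, sub_self]
    exact Even.zero
  · have co : Commute σ γ := (hT.gal L d M s θ σ γ t).2.2.2.1
    obtain ⟨y, hy, e⟩ := NT2.h1p (Pr L 2) _ 2 _ σ two_pos (norm_mem (co.pow_right (2 ^ m))) B
      (fix_iff.2 h1) ((nm_two σ B).trans h2)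
    have iv : ∀ g, Commute σ g → ∀ w : Pr L 2, σ • g⁻¹ • w ≠ g⁻¹ • w ↔ σ • w ≠ w := fun g c w => by
      rw [← mul_smul, c.inv_right.eq, mul_smul, Ne, smul_left_cancel_iff]
    refine ⟨(-y).filter fun w => σ • w ≠ w, ?_, ?_, fun w hw =>
      Finsupp.filter_apply_neg _ _ (not_not.2 hw)⟩
    · exact (smul_filter _ _ (iv _ (co.pow_right _)) _).trans
        (congrArg _ (fix_iff.1 (neg_mem hy)))
    · rw [smul_filter _ _ (iv σ (Commute.refl σ)), ← Finsupp.filter_sub, smul_neg, neg_sub_neg,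
        ← e]
      ext w
      rw [Finsupp.filter_apply]
      split_ifs with hw
      · rfl
      · have := DFunLike.congr_fun h2 w
        rw [Finsupp.add_apply, NT2.pm_apply, inv_smul_eq_iff.2 (not_not.1 hw).symm,
          Finsupp.zero_apply] at this
        omega
  · obtain ⟨-, -, s2, co, -, ne, -⟩ := hT.gal L d M s θ σ γ t
    obtain ⟨y, hy, e⟩ := NT2.h1u L _ 2 _ σ Nat.prime_two
      (norm_mem (Commute.pow_right co (2 ^ m))) (by rw [sq, s2]; exact one_mem _) (fun h => by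
        obtain ⟨k, hk⟩ := mem_powers_iff_mem_zpowers.2 h
        exact ne _ (hk.symm.trans (pow_mul γ _ k).symm)) x (fix_iff.2 h1) ((nm_two σ x).trans h2)
    exact ⟨-y, fix_iff.1 (neg_mem hy), by rw [smul_neg, neg_sub_neg, e]⟩
  · obtain ⟨fin, le, -⟩ := hP.fin L d M s θ σ γ t
    have := fin.to_subtype
    let φ : (Rm L d ⊓ Iv γ m : AddSubgroup _) →+
        {w : Pr L 2 | (d : 𝓞 L) ∈ w.1.asIdeal} → ZMod 2 :=
      AddMonoidHom.mk' (fun c w => (c.1 w.1 : ZMod 2)) fun a b => by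
        funext w
        simp
    have k : φ.ker ≤ (Oc γ m).addSubgroupOf (Rm L d ⊓ Iv γ m) := fun c hc =>
      od_mono inf_le_left (amb1 hC hO hT hP t hm c.2.2 (rm_fix hP t c.2.1) fun w hw =>
        even_iff_two_dvd.2 ((ZMod.intCast_zmod_eq_zero_iff_dvd _ 2).1 (congrFun hc ⟨w, hw⟩)))
    have dv := AddSubgroup.index_dvd_of_le k
    rw [AddSubgroup.index_ker] at dv
    have p : 0 < Nat.card φ.range := Nat.card_pos
    refine ⟨ne_zero_of_dvd_ne_zero p.ne' dv, (Nat.le_of_dvd p dv).trans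
      ((Nat.card_le_card_of_injective _ Subtype.val_injective).trans ?_)⟩
    rw [Nat.card_fun, Nat.card_zmod]
    exact Nat.pow_le_pow_right two_pos le

end Pool.Agent.MP_1246c0_nt.H12
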