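import Pool.Agent.MP_1246c0_nt.H12.SpecR

/-! The number of compatible vectors. -/

namespace Pool.Agent.MP_1246c0_nt.H12

open Finset

namespace ML

theorem f2_one : ∀ a : F2, a ≠ 0 → a = 1 := by decide

theorem f2_add : ∀ a : F2, a + a = 0 := by decide

theorem f2_neg : ∀ a : F2, -a = a := by decide

/-- a biadditive map -/
def bi {A A' : Type} [AddCommGroup A] [AddCommGroup A'] (f : A → A' → F2)
    (h1 : ∀ a b c, f (a + b) c = f a c + f b c) (h2 : ∀ a b c, f a (b + c) = f a b + f a c) :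
    A →+ A' →+ F2 :=
  AddMonoidHom.mk' (fun a => AddMonoidHom.mk' (f a) (h2 a)) fun a b =>
    AddMonoidHom.ext fun c => h1 a b c

theorem polar {A : Type} [AddCommGroup A] (T : A →+ A →+ F2) (l : A →+ F2) (x0 x x' : A) :
    (T (x0 + x + x') (x0 + x + x') + l (x0 + x + x')) + (T (x0 + x) (x0 + x) + l (x0 + x)) +
      (T (x0 + x') (x0 + x') + l (x0 + x')) + (T x0 x0 + l x0) = T x x' + T x' x := by
  simp only [map_add, AddMonoidHom.add_apply]
  have h : (2 : F2) = 0 := rfl
  linear_combination (2 * T x0 x0 + T x0 x + T x x0 + T x x + T x0 x' + T x' x0 + T x' x' +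
    2 * l x0 + l x + l x') * h

variable {Λ ι G : Type} [CommRing Λ] [Fintype ι] [DecidableEq ι] [AddCommGroup G] [Module Λ G]

/-- the dual as a module -/
abbrev duMod (Λ G : Type) [CommRing Λ] [AddCommGroup G] [Module Λ G] : Module Λ (G →+ F2) where
  smul h μ := μ.comp (DistribSMul.toAddMonoidHom G h)
  one_smul μ := AddMonoidHom.ext fun w => congrArg μ (one_smul Λ w)
  mul_smul a b μ := AddMonoidHom.ext fun w => congrArg μ (by
    change (a * b) • w = b • a • w
    rw [mul_comm, mul_smul])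
  smul_zero _ := rfl
  smul_add _ _ _ := rfl
  add_smul a b μ := AddMonoidHom.ext fun w => (congrArg μ (add_smul a b w)).trans (map_add μ _ _)
  zero_smul μ := AddMonoidHom.ext fun w => (congrArg μ (zero_smul Λ w)).trans (map_zero μ)

section Maps

variable (S : Matrix ι ι Λ) (c : ι → Λ) (B P : Finset ι) (o : Λ) (b : Bool) (u : Module.End Λ G)

omit [Fintype ι] in
theorem xv_add (g g' : ι → G) (l : ι) : xv P b u (g + g') l = xv P b u g l + xv P b u g' l := by
  simp only [xv, Pi.add_apply, map_add]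
  split_ifs <;> rfl

omit [Fintype ι] in
theorem rv_add (g g' : ι → G) (l : ι) :
    rv P o b u (g + g') l = rv P o b u g l + rv P o b u g' l := by
  simp only [rv, xv_add, Pi.add_apply, sum_add_distrib, smul_add, map_add]
  split_ifs <;> abel

/-- the defect of the system -/
def df (g : ι → G) (l : ι) : G := rv P o b u g l - ap S (xv P b u g) l

theorem df_add (g g' : ι → G) (l : ι) :
    df S P o b u (g + g') l = df S P o b u g l + df S P o b u g' l := by
  simp only [df, rv_add, ap, xv_add, smul_add, sum_add_distrib]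
  abel

/-- the quadratic part -/
def TT (β : G →+ G →+ F2) : (ι → G) →+ (ι → G) →+ F2 :=
  bi (fun g g' => ∑ l ∈ B, β (xv P b u g l) (df S P o b u g' l))
    (fun _ _ _ => by simp only [xv_add, map_add, AddMonoidHom.add_apply, sum_add_distrib])
    (fun _ _ _ => by simp only [df_add, map_add, sum_add_distrib])

theorem TT_apply (β : G →+ G →+ F2) (g g' : ι → G) :
    TT S B P o b u β g g' = ∑ l ∈ B, β (xv P b u g l) (df S P o b u g' l) := rfl

/-- the linear part -/
def LL (μ : {l // l ∉ B} → G →+ F2) (ν : G →+ F2) : (ι → G) →+ F2 :=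
  AddMonoidHom.mk' (fun g => ∑ l, μ l (df S P o b u g l) + ν (∑ l, c l • xv P b u g l))
    fun _ _ => by
      simp only [df_add, xv_add, map_add, smul_add, sum_add_distrib]
      ring

theorem LL_apply (μ : {l // l ∉ B} → G →+ F2) (ν : G →+ F2) (g : ι → G) :
    LL S c B P o b u μ ν g = ∑ l, μ l (df S P o b u g l) + ν (∑ l, c l • xv P b u g l) := rfl

/-- the family of quadratic functions -/
def QQ (st : Λ →+* Λ) :
    Alt G st × ({l // l ∉ B} → G →+ F2) × (G →+ F2) →+ (ι → G) → F2 :=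
  AddMonoidHom.mk' (fun t g => TT S B P o b u t.1 g g + LL S c B P o b u t.2.1 t.2.2 g)
    fun _ _ => by
      funext g
      simp only [TT_apply, LL_apply, Prod.fst_add, Prod.snd_add, AddSubgroup.coe_add, Pi.add_apply,
        AddMonoidHom.add_apply, sum_add_distrib]
      ring

theorem QQ_apply (st : Λ →+* Λ) (t : Alt G st × ({l // l ∉ B} → G →+ F2) × (G →+ F2))
    (g : ι → G) : QQ S c B P o b u st t g =
      TT S B P o b u t.1 g g + LL S c B P o b u t.2.1 t.2.2 g := rfl

theorem QQ_iff (st : Λ →+* Λ) (hd : ∀ x : G, x ≠ 0 → ∃ μ : G →+ F2, μ x = 1) (g : ι → G) :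
    ((∀ β ∈ Alt G st, ∑ l ∈ B, β (xv P b u g l) (rv P o b u g l - ap S (xv P b u g) l) = 0) ∧
      (∀ l, l ∉ B → ap S (xv P b u g) l = rv P o b u g l) ∧ ∑ l, c l • xv P b u g l = 0) ↔
    ∀ t, QQ S c B P o b u st t g = 0 := by
  have hz : ∀ x : G, (∀ μ : G →+ F2, μ x = 0) → x = 0 := fun x h => by
    by_contra n
    obtain ⟨μ, e⟩ := hd x n
    exact zero_ne_one ((h μ).symm.trans e)
  constructor
  · rintro ⟨h1, h2, h3⟩ t
    rw [QQ_apply, TT_apply, LL_apply, h3, map_zero, add_zero, sum_eq_zero (s := univ) fun l _ => by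
      rw [df, h2 l l.2, sub_self, map_zero], add_zero]
    exact h1 _ t.1.2
  · intro h
    refine ⟨fun β hβ => ?_, fun l hl => (sub_eq_zero.1 (hz _ fun μ => ?_)).symm, hz _ fun ν => ?_⟩
    · simpa [QQ_apply, TT_apply, LL_apply, df] using h (⟨β, hβ⟩, 0, 0)
    · have := h (0, Pi.single ⟨l, hl⟩ μ, 0)
      rw [QQ_apply, TT_apply, LL_apply, Fintype.sum_eq_single ⟨l, hl⟩ fun l' n => by
        simp [Pi.single_eq_of_ne n]] at this
      simpa [df] using this
    · simpa [QQ_apply, TT_apply, LL_apply] using h (0, 0, ν)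

/-- the diagonal part of the polar form -/
def pi (β : G →+ G →+ F2) (ε : F2) : G →+ G →+ F2 :=
  bi (fun v w => (if b = true then 0 else β v (u w) + β w (u v)) + ε * β v w)
    (fun _ _ _ => by
      simp only [map_add, AddMonoidHom.add_apply]
      split_ifs <;> ring)
    (fun _ _ _ => by
      simp only [map_add, AddMonoidHom.add_apply]
      split_ifs <;> ring)

theorem pi_apply (β : G →+ G →+ F2) (ε : F2) (v w : G) :
    pi b u β ε v w = (if b = true then 0 else β v (u w) + β w (u v)) + ε * β v w := rfl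

theorem pi_ne {β : G →+ G →+ F2} (h : β ≠ 0) : ∃ ε, pi b u β ε ≠ 0 := by
  by_contra n
  push Not at n
  refine h (AddMonoidHom.ext fun v => AddMonoidHom.ext fun w => ?_)
  have a : pi b u β 0 v w = 0 := by rw [n]; rfl
  have a' : pi b u β 1 v w = 0 := by rw [n]; rfl
  rw [pi_apply] at a a'
  change β v w = 0
  linear_combination a' - a

end Maps

variable {st : Λ →+* Λ} {au : Λ →+* F2} {S : Matrix ι ι Λ} {c : ι → Λ} {B P J : Finset ι}
  {o : Λ} {b : Bool} {u : Module.End Λ G}

omit [Fintype ι] in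
theorem xv_eq {x : ι → G} (h : ∀ l, l ∉ J → x l = 0) (typ : ∀ l ∈ J, l ∈ P ↔ b = false) :
    xv P b u x = x := by
  funext l
  rw [xv]
  split_ifs with e
  · rw [h l fun n => by simpa [e.2] using (typ l n).1 e.1, map_zero]
  · rfl

theorem alt_symm {β : G →+ G →+ F2} (h : β ∈ Alt G st) (v w : G) : β v w = β w v := by
  have := h.2 (v + w)
  simp only [map_add, AddMonoidHom.add_apply, h.2 v, h.2 w] at this
  linear_combination this - f2_add (β w v)

theorem val_smul (β : G →+ F2) (ε : F2) (w : G) : β ((ε.val : Λ) • w) = ε * β w := by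
  rw [Nat.cast_smul_eq_nsmul, map_nsmul, nsmul_eq_mul, ZMod.natCast_zmod_val]

theorem rpart (β : G →+ G →+ F2) {x x' : ι → G} (sub : J ⊆ B)
    (typ : ∀ l ∈ J, l ∈ P ↔ b = false) (h : ∀ l, l ∉ J → x l = 0) (h' : ∀ l, l ∉ J → x' l = 0)
    (hs : ∑ l, x l = 0 ∨ ∑ l, x' l = 0) :
    ∑ l ∈ B, β (x l) (rv P o b u x' l) = ∑ l ∈ J, if b = true then 0 else β (x l) (u (x' l)) := by
  rw [← sum_subset sub fun l _ n => by rw [h l n, map_zero, AddMonoidHom.zero_apply]]
  cases b with
  | true =>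
    refine sum_congr rfl fun l hl => ?_
    rw [rv, if_neg (by simpa using (typ l hl).1), map_zero, if_pos rfl]
  | false =>
    have JP : J ⊆ P := fun l hl => (typ l hl).2 rfl
    have e : ∑ l ∈ J, β (x l) (u (o • ∑ l' ∈ P, x' l')) = 0 := by
      rcases hs with hs | hs
      · rw [← AddMonoidHom.finsetSum_apply, ← map_sum,
          sum_subset (subset_univ J) fun l _ n => h l n, hs, map_zero, AddMonoidHom.zero_apply]
      · rw [sum_subset (subset_univ P) fun l _ n => h' l fun k => n (JP k), hs]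
        simp
    rw [← add_zero (∑ l ∈ J, ite _ _ _), ← e, ← sum_add_distrib]
    refine sum_congr rfl fun l hl => ?_
    rw [rv, if_pos (JP hl), xv_eq h' typ]
    simp

theorem spart {β : G →+ G →+ F2} (hβ : β ∈ Alt G st) (sym : Sym st au S c B) {ε : F2}
    {x x' : ι → G} (sub : J ⊆ B) (hε : ∀ l ∈ J, au (c l) = ε) (h : ∀ l, l ∉ J → x l = 0)
    (h' : ∀ l, l ∉ J → x' l = 0) (hs : ∑ l, c l • x l = 0) :
    ∑ l ∈ B, β (x l) (ap S x' l) + ∑ l ∈ B, β (x' l) (ap S x l) =
      ∑ l ∈ J, ε * β (x l) (x' l) := by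
  have red : ∀ y y' : ι → G, (∀ l, l ∉ J → y l = 0) → (∀ l, l ∉ J → y' l = 0) →
      ∑ l ∈ B, β (y l) (ap S y' l) = ∑ l ∈ J, ∑ l' ∈ J, β (y l) (S l l' • y' l') := by
    intro y y' k k'
    rw [← sum_subset sub fun l _ n => by rw [k l n, map_zero, AddMonoidHom.zero_apply]]
    refine sum_congr rfl fun l _ => ?_
    rw [ap, ← sum_subset (subset_univ J) fun l' _ n => by rw [k' l' n, smul_zero], map_sum]
  have z : ∑ l ∈ J, ∑ l' ∈ J, β (c l • x l) (c l' • x' l') = 0 := by
    rw [sum_comm]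
    refine sum_eq_zero fun l' _ => ?_
    rw [← AddMonoidHom.finsetSum_apply, ← map_sum,
      sum_subset (subset_univ J) fun l _ n => by rw [h l n, smul_zero], hs, map_zero,
      AddMonoidHom.zero_apply]
  rw [red x x' h h', red x' x h' h, sum_comm (f := fun l l' => β (x' l) (S l l' • x l')),
    ← sum_add_distrib, ← zero_add (∑ l ∈ J, ε * _), ← z, ← sum_add_distrib]
  refine sum_congr rfl fun l hl => ?_
  have d : ε * β (x l) (x' l) = ∑ l' ∈ J, if l = l' then ε * β (x l) (x' l') else 0 := by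
    rw [sum_ite_eq, if_pos hl]
  rw [d, ← sum_add_distrib, ← sum_add_distrib]
  refine sum_congr rfl fun l' hl' => ?_
  rw [alt_symm hβ (x' l'), hβ.1, hβ.1, ← map_add, ← add_smul, sym l (sub hl) l' (sub hl'),
    add_smul, map_add, mul_smul, hε l hl]
  split_ifs
  · rw [val_smul]
  · rw [zero_smul, map_zero]

theorem polar_eq {β : G →+ G →+ F2} (hβ : β ∈ Alt G st) (sym : Sym st au S c B) {ε : F2}
    {x x' : ι → G} (sub : J ⊆ B) (typ : ∀ l ∈ J, l ∈ P ↔ b = false) (hε : ∀ l ∈ J, au (c l) = ε)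
    (h : ∀ l, l ∉ J → x l = 0) (h' : ∀ l, l ∉ J → x' l = 0) (h1 : ∑ l, x l = 0)
    (h2 : ∑ l, c l • x l = 0) :
    TT S B P o b u β x x' + TT S B P o b u β x' x = ∑ l ∈ J, pi b u β ε (x l) (x' l) := by
  have a := rpart (o := o) (u := u) β sub typ h h' (Or.inl h1)
  have a' := rpart (o := o) (u := u) β sub typ h' h (Or.inr h1)
  have s := spart hβ sym sub hε h h' h2
  have e : ∑ l ∈ J, pi b u β ε (x l) (x' l) =
      (∑ l ∈ J, if b = true then 0 else β (x l) (u (x' l))) +
      (∑ l ∈ J, if b = true then 0 else β (x' l) (u (x l))) + ∑ l ∈ J, ε * β (x l) (x' l) := by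
    rw [← sum_add_distrib, ← sum_add_distrib]
    refine sum_congr rfl fun l _ => ?_
    rw [pi_apply]
    split_ifs <;> ring
  simp only [TT_apply, df, xv_eq h typ, xv_eq h' typ, map_sub, sum_sub_distrib]
  rw [e, a, a', ← s]
  linear_combination -f2_add (∑ l ∈ B, β (x l) (ap S x' l)) - f2_add (∑ l ∈ B, β (x' l) (ap S x l))

theorem LL_single (μ : {l // l ∉ B} → G →+ F2) (ν : G →+ F2) {l' : ι} (h : l' ∉ P) (w : G) :
    LL S c B P o b u μ ν (Pi.single l' w) = ∑ l, μ l (S l l' • w) + ν (c l' • w) := by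
  have z : ∀ l ∈ P, (Pi.single l' w : ι → G) l = 0 := fun l hl =>
    Pi.single_eq_of_ne (fun e : l = l' => h (e ▸ hl)) _
  have a : xv P b u (Pi.single l' w) = Pi.single l' w := by
    funext l
    rw [xv]
    split_ifs with e
    · rw [z l e.1, map_zero]
    · rfl
  have s : ∀ f : ι → Λ, ∑ l, f l • (Pi.single l' w : ι → G) l = f l' • w := fun f => by
    rw [Fintype.sum_eq_single l' fun l n => by rw [Pi.single_eq_of_ne n, smul_zero],
      Pi.single_eq_same]
  have r : ∀ l, rv P o b u (Pi.single l' w) l = 0 := fun l => by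
    rw [rv, a, sum_eq_zero z]
    split_ifs with e <;> simp [z l, e]
  simp only [LL_apply, df, a, ap, s, r, zero_sub, map_neg, f2_neg]

theorem lin_ne (hQ : SQF) {τ : Λ} {N m z : ℕ} (lr : LR st au τ N) (ok : Ok st au S c B P J b m z)
    (μ : {l // l ∉ B} → G →+ F2) (ν : G →+ F2)
    (h : ∀ l' ∈ B, l' ∉ P → ∀ w, ∑ l, μ l (S l l' • w) + ν (c l' • w) = 0) : μ = 0 ∧ ν = 0 := by
  let _ := duMod Λ G
  have := hQ.soc Λ (G →+ F2) (Option {l // l ∉ B}) {l' // l' ∈ B ∧ l' ∉ P} st au τ N
    (fun l' j => j.elim (c l') fun l => S l l') lr (fun y hy => by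
      obtain ⟨a, a'⟩ := ok.row (fun l => if e : l ∈ B then 0 else y (some ⟨l, e⟩)) (y none)
        (fun l e => dif_pos e) (fun l' e e' => by
          have := hy ⟨l', e, e'⟩
          rw [Fintype.sum_option] at this
          rw [← sum_subset (subset_univ Bᶜ) fun l _ n => by
            rw [dif_pos (by simpa using n), zero_mul], sum_subtype Bᶜ (p := fun l => l ∉ B)
              fun _ => mem_compl, ← this, add_comm, mul_comm]
          congr 1
          exact sum_congr rfl fun l _ => by rw [dif_neg l.2, mul_comm]; rfl)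
      funext j
      rcases j with _ | l
      · exact a'
      · have := congrFun a l
        rwa [dif_neg l.2] at this)
    (fun j => j.elim ν μ) fun l' => AddMonoidHom.ext fun w => by
      rw [Fintype.sum_option, AddMonoidHom.add_apply, AddMonoidHom.finsetSum_apply, add_comm]
      exact h l' l'.2.1 l'.2.2 w
  exact ⟨funext fun l => congrFun this (some l), congrFun this none⟩

theorem card_alt (hQ : SQF) [Finite G] {γ : ℕ} (hG : Nat.card G = 2 ^ γ)
    (hD : Nat.card (G →+ F2) = Nat.card G) : Nat.card (Alt G st) ≤ 2 ^ (γ * γ) := by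
  classical
  have := Fintype.ofFinite G
  obtain ⟨L, -, h1, h2⟩ := (hQ.few ℤ G G γ hG).2.2 id univ
  have : Finite (G →+ F2) := DFunLike.finite _
  have inj : Function.Injective fun (β : Alt G st) (v : L) => β.1 v := by
    intro β β' e
    refine Subtype.ext (AddMonoidHom.toIntLinearMap_injective (LinearMap.ext_on (s := L) ?_
      fun v hv => congrFun e ⟨v, hv⟩))
    simpa [sp] using h2
  refine (Nat.card_le_card_of_injective _ inj).trans ?_
  rw [Nat.card_fun, hD, hG, ← pow_mul, Nat.card_eq_fintype_card, Fintype.card_coe]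
  exact Nat.pow_le_pow_right two_pos (Nat.mul_le_mul_left _ h1)

end ML

open ML in
theorem rowML : OfML := by
  intro hQ Λ ι G _ _ _ _ _ _ _ st au τ N S c B P J o b m z γ u lr ok hG
  obtain ⟨hD, hd, -⟩ := hQ.dual G fun x => by rw [← two_smul Λ, lr.two, zero_smul]
  have hA := card_alt (st := st) hQ hG hD
  refine ⟨hA, ?_⟩
  have : Finite (G →+ F2) := DFunLike.finite _
  have : Finite (G →+ G →+ F2) := DFunLike.finite _
  have key := hQ.qc (ι → G) _ (QQ S c B P o b u st) (2 ^ γ / 2 ^ (m / 2)) (by positivity) (by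
    rintro ⟨β, μ, ν⟩ ne
    by_cases hβ : β = 0
    · subst hβ
      have : ∃ l' ∈ B, l' ∉ P ∧ ∃ w, ∑ l, μ l (S l l' • w) + ν (c l' • w) ≠ 0 := by
        by_contra n
        push Not at n
        obtain ⟨rfl, rfl⟩ := lin_ne hQ lr ok μ ν n
        exact ne rfl
      obtain ⟨l', -, h, w, hw⟩ := this
      rw [hQ.lin _ _ (Pi.single l' w) fun x => by
        rw [QQ_apply, QQ_apply, map_add (LL S c B P o b u _ _), LL_single _ _ h, f2_one _ hw]
        simp [TT_apply], abs_zero]
      positivity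
    · obtain ⟨ε, hε⟩ := pi_ne b u (β := β.1) fun e => hβ (Subtype.ext e)
      have q := hQ.qb G ι (G × G) (J.filter fun l => au (c l) = ε)
        (QQ S c B P o b u st (β, μ, ν)) _
        (TT S B P o b u β.1 + (TT S B P o b u β.1).flip -
          bi (fun x x' => ∑ l ∈ J.filter fun l => au (c l) = ε, pi b u β.1 ε (x l) (x' l))
            (fun _ _ _ => by simp only [Pi.add_apply, map_add, AddMonoidHom.add_apply,
              sum_add_distrib])
            (fun _ _ _ => by simp only [Pi.add_apply, map_add, sum_add_distrib]))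
        (AddMonoidHom.mk' (fun x => (∑ l, x l, ∑ l, c l • x l)) fun _ _ => by
          simp only [Pi.add_apply, smul_add, sum_add_distrib, Prod.mk_add_mk]) hε
        (fun x x' h h' e => sub_eq_zero.2 (polar_eq β.2 ok.sym
          ((filter_subset _ _).trans ok.sub) (fun l hl => ok.typ l (mem_filter.1 hl).1)
          (fun l hl => (mem_filter.1 hl).2) h h' (congrArg Prod.fst e) (congrArg Prod.snd e)))
        (fun x0 x x' _ _ => (polar _ _ x0 x x').trans (add_sub_cancel _ _).symm)
      refine abs_le_of_sq_le_sq (q.trans ?_) (by positivity)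
      have p1 : (2 : ℝ) ^ (m / 2 * 2) ≤ 2 ^ (J.filter fun l => au (c l) = ε).card :=
        pow_le_pow_right₀ one_le_two ((Nat.div_mul_le_self m 2).trans (ok.cnt ε))
      rw [Nat.card_prod, hG, mul_pow, div_pow, ← pow_mul _ (m / 2), mul_comm (_ / _),
        ← mul_div_assoc]
      push_cast
      rw [← sq]
      gcongr)
  rw [Nat.card_congr (Equiv.subtypeEquivRight (QQ_iff S c B P o b u st hd))]
  have c1 : Nat.card ι = B.card + Bᶜ.card := by
    rw [card_add_card_compl, Nat.card_eq_fintype_card]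
  have c2 : Nat.card {l // l ∉ B} = Bᶜ.card := by
    rw [Nat.card_eq_fintype_card, Fintype.card_subtype]
    congr 1
    ext l
    simp
  rw [Nat.card_prod, Nat.card_prod, Nat.card_fun, Nat.card_fun, hD, c1, c2] at key
  rw [hG] at key ⊢
  have a0 : (0 : ℝ) < Nat.card (Alt G st) := by exact_mod_cast Nat.card_pos
  have a1 : (Nat.card (Alt G st) : ℝ) ≤ 2 ^ (γ * γ) := by exact_mod_cast hA
  have a2 : ((2 : ℝ) ^ γ) ^ Bᶜ.card ≤ (2 ^ γ) ^ z :=
    pow_le_pow_right₀ (one_le_pow₀ one_le_two) ok.sml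
  push_cast at key ⊢
  generalize (Nat.card {x // ∀ t, QQ S c B P o b u st t x = 0} : ℝ) = n at key ⊢
  generalize (Nat.card (Alt G st) : ℝ) = a at key a0 a1 ⊢
  have e : n * a / (2 ^ γ) ^ B.card - 1 / 2 ^ γ = (n - (2 ^ γ) ^ (B.card + Bᶜ.card) /
      (a * ((2 ^ γ) ^ Bᶜ.card * 2 ^ γ))) * (a / (2 ^ γ) ^ B.card) := by
    field_simp
    ring
  rw [e, abs_mul, abs_of_pos (show 0 < a / (2 ^ γ) ^ B.card by positivity)]
  refine (mul_le_mul_of_nonneg_right key (by positivity)).trans ?_
  calc _ = a * ((2 ^ γ) ^ Bᶜ.card * 2 ^ γ) / 2 ^ (m / 2) := by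
        field_simp
        ring
    _ ≤ 2 ^ (γ * γ) * ((2 ^ γ) ^ z * 2 ^ γ) / 2 ^ (m / 2) := by gcongr
    _ = _ := by ring

end Pool.Agent.MP_1246c0_nt.H12
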